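import Pool.Agent.Helper26.MQ.Trap
import Pool.Agent.Helper26.GG.Defs
import Pool.Agent.Helper86.GT.Growth

/-!
# Random maps with a dominant last component: every point escapes, and return sets are finite
-/

set_option autoImplicit false

namespace Pool.Agent.Helper86.GG

open Finset MvPolynomial
open Pool.Agent.Helper86.MQ (pm)
open Pool.Agent.Helper26.MQ (red inc coe_prod_pow toZMod_eq_zero_iff norm_eq_one_of_toZMod
  special_small cases_point)
open Pool.Agent.Helper26.GT (wd)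
open Pool.Agent.Helper26.GG

variable {m d e : ℕ}

theorem eval_gP {R : Type*} [CommRing R] (c : Gdx m d e → R) (i : Fin (m + 1))
    (x : Fin (m + 1) → R) :
    eval x (gP c i) = ∑ t : {s : Fin (m + 1) →₀ ℕ // s.degree ≤ wd d e i},
      c ⟨i, t⟩ * ∏ j, x j ^ (t : Fin (m + 1) →₀ ℕ) j := by
  rw [gP, map_sum]
  refine Finset.sum_congr rfl fun t _ => ?_
  rw [eval_monomial, Finsupp.prod_fintype]
  simp

theorem eval_gF {R : Type*} [CommRing R] (c : Gdx m d e → R) (i : Fin (m + 1))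
    (x : Fin (m + 1) → R) :
    eval x (gF c i) = ∑ t : {s : Fin (m + 1) →₀ ℕ // s.degree ≤ wd d e i},
      if (t : Fin (m + 1) →₀ ℕ).degree = wd d e i then
        c ⟨i, t⟩ * ∏ j, x j ^ (t : Fin (m + 1) →₀ ℕ) j else 0 := by
  rw [gF, gP, map_sum, map_sum]
  refine Finset.sum_congr rfl fun t _ => ?_
  rw [homogeneousComponent_of_mem (isHomogeneous_monomial _ rfl)]
  by_cases h : (t : Fin (m + 1) →₀ ℕ).degree = wd d e i
  · rw [if_pos h.symm, if_pos h, eval_monomial, Finsupp.prod_fintype]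
    simp
  · rw [if_neg (Ne.symm h), if_neg h, map_zero]

variable {p : ℕ} [hp : Fact p.Prime]

/-- The decomposition of `Φ`. -/
theorem exists_lift {Φ : Fin (m + 1) → MvPolynomial (Fin (m + 1)) ℚ_[p]} (hΦ : GPre p m d e Φ)
    {c : Gdx m d e → ZMod p} (hc : GRed Φ c) :
    ∃ (a : Gdx m d e → ℤ_[p]) (s : ℚ_[p]), (∀ k, PadicInt.toZMod (a k) = c k) ∧ ‖s‖ = (p : ℝ) ∧
      ∀ x i, pm Φ x i = (∑ t : {s : Fin (m + 1) →₀ ℕ // s.degree ≤ wd d e i},
        ((a ⟨i, t⟩ : ℤ_[p]) : ℚ_[p]) * ∏ j, x j ^ (t : Fin (m + 1) →₀ ℕ) j) +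
          if i = Fin.last m then s * x (Fin.last m) ^ d else 0 := by
  classical
  have hz : ∀ k : Gdx m d e, ∃ z : ℤ_[p], PadicInt.toZMod z = c k ∧
      (k ≠ sp m d e → (z : ℚ_[p]) = coeff k.2.1 (Φ k.1)) := by
    intro k
    by_cases hk : k = sp m d e
    · obtain ⟨z, hz⟩ := ZMod.ringHom_surjective (PadicInt.toZMod (p := p)) (c k)
      exact ⟨z, hz, fun h => absurd hk h⟩
    · obtain ⟨z, hz1, hz2⟩ := hc k hk
      exact ⟨z, hz2, fun _ => hz1⟩
  choose a ha1 ha2 using hz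
  set s : ℚ_[p] := coeff (Finsupp.single (Fin.last m) d) (Φ (Fin.last m)) -
    (a (sp m d e) : ℚ_[p]) with hs
  have hp1 : (1 : ℝ) < p := by exact_mod_cast hp.out.one_lt
  have hsn : ‖s‖ = (p : ℝ) := by
    have h1 : ‖(a (sp m d e) : ℚ_[p])‖ ≤ 1 := PadicInt.norm_le_one _
    have h2 : ‖coeff (Finsupp.single (Fin.last m) d) (Φ (Fin.last m))‖ ≠
        ‖-(a (sp m d e) : ℚ_[p])‖ := by
      rw [hΦ.one, norm_neg]
      exact fun h => absurd (h ▸ h1) (not_le.2 hp1)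
    rw [hs, sub_eq_add_neg, IsUltrametricDist.norm_add_eq_max_of_norm_ne_norm h2, hΦ.one, norm_neg]
    exact max_eq_left (h1.trans hp1.le)
  refine ⟨a, s, ha1, hsn, ?_⟩
  intro x i
  -- the array of `Φ`
  have hΦ' : Φ = gP (fun k : Gdx m d e => coeff (k.2 : Fin (m + 1) →₀ ℕ) (Φ k.1)) := by
    rw [gP_coeff]
    intro i t ht
    by_contra h0
    exact ht ((le_totalDegree (mem_support_iff.2 h0)).trans (hΦ.deg i))
  have h1 : pm Φ x i = ∑ t : {s : Fin (m + 1) →₀ ℕ // s.degree ≤ wd d e i},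
      coeff (t : Fin (m + 1) →₀ ℕ) (Φ i) * ∏ j, x j ^ (t : Fin (m + 1) →₀ ℕ) j := by
    conv_lhs => rw [hΦ']
    rw [pm, eval_gP]
  rw [h1]
  by_cases hi : i = Fin.last m
  · subst hi
    rw [if_pos rfl]
    set t₀ : {s : Fin (m + 1) →₀ ℕ // s.degree ≤ wd d e (Fin.last m)} := (sp m d e).2 with ht₀
    rw [← Finset.add_sum_erase Finset.univ (fun t :
        {s : Fin (m + 1) →₀ ℕ // s.degree ≤ wd d e (Fin.last m)} =>
      coeff (t : Fin (m + 1) →₀ ℕ) (Φ (Fin.last m)) * ∏ j, x j ^ (t : Fin (m + 1) →₀ ℕ) j)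
      (Finset.mem_univ t₀),
      ← Finset.add_sum_erase (M := ℚ_[p]) Finset.univ (fun t :
        {s : Fin (m + 1) →₀ ℕ // s.degree ≤ wd d e (Fin.last m)} =>
      ((a ⟨Fin.last m, t⟩ : ℤ_[p]) : ℚ_[p]) * ∏ j, x j ^ (t : Fin (m + 1) →₀ ℕ) j)
      (Finset.mem_univ t₀)]
    have h2 : ∀ t ∈ univ.erase t₀,
        coeff (t : Fin (m + 1) →₀ ℕ) (Φ (Fin.last m)) * ∏ j, x j ^ (t : Fin (m + 1) →₀ ℕ) j =
        ((a ⟨Fin.last m, t⟩ : ℤ_[p]) : ℚ_[p]) * ∏ j, x j ^ (t : Fin (m + 1) →₀ ℕ) j := by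
      intro t ht
      rw [← ha2 ⟨Fin.last m, t⟩]
      intro h3
      refine (Finset.mem_erase.1 ht).1 ?_
      have h4 := (Sigma.ext_iff.1 h3).2
      exact eq_of_heq h4
    rw [Finset.sum_congr rfl h2]
    have h3 : ∏ j, x j ^ (t₀ : Fin (m + 1) →₀ ℕ) j = x (Fin.last m) ^ d := by
      change ∏ j, x j ^ (Finsupp.single (Fin.last m) d : Fin (m + 1) →₀ ℕ) j = _
      rw [Finset.prod_eq_single (Fin.last m)]
      · simp
      · intro b _ hb
        rw [Finsupp.single_apply, if_neg (Ne.symm hb), pow_zero]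
      · simp
    have h4 : coeff (t₀ : Fin (m + 1) →₀ ℕ) (Φ (Fin.last m)) =
        coeff (Finsupp.single (Fin.last m) d) (Φ (Fin.last m)) := rfl
    have h5 : a ⟨Fin.last m, t₀⟩ = a (sp m d e) := rfl
    simp only [h3, h4, h5]
    rw [hs]
    ring
  · rw [if_neg hi, add_zero]
    refine Finset.sum_congr rfl fun t _ => ?_
    rw [← ha2 ⟨i, t⟩]
    intro h3
    exact hi (congrArg Sigma.fst h3)

/-- One step at an integral point whose reduction is in the hyperplane. -/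
theorem stepA (hd : 2 ≤ d) {Φ : Fin (m + 1) → MvPolynomial (Fin (m + 1)) ℚ_[p]}
    {c : Gdx m d e → ZMod p} {a : Gdx m d e → ℤ_[p]} {s : ℚ_[p]}
    (ha : ∀ k, PadicInt.toZMod (a k) = c k) (hs : ‖s‖ = (p : ℝ))
    (hΦ : ∀ x i, pm Φ x i = (∑ t : {s : Fin (m + 1) →₀ ℕ // s.degree ≤ wd d e i},
        ((a ⟨i, t⟩ : ℤ_[p]) : ℚ_[p]) * ∏ j, x j ^ (t : Fin (m + 1) →₀ ℕ) j) +
          if i = Fin.last m then s * x (Fin.last m) ^ d else 0)
    (y : Fin (m + 1) → ℤ_[p]) (hy : red y (Fin.last m) = 0) :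
    ∃ y' : Fin (m + 1) → ℤ_[p], pm Φ (inc y) = inc y' ∧ red y' = pm (gP c) (red y) := by
  obtain ⟨z, hz1, hz2⟩ := special_small hd hs (y (Fin.last m)) ((toZMod_eq_zero_iff _).1 hy)
  refine ⟨fun i => (∑ t : {s : Fin (m + 1) →₀ ℕ // s.degree ≤ wd d e i},
    a ⟨i, t⟩ * ∏ j, y j ^ (t : Fin (m + 1) →₀ ℕ) j) + if i = Fin.last m then z else 0, ?_, ?_⟩
  · funext i
    rw [hΦ]
    simp only [inc]
    rw [PadicInt.coe_add, PadicInt.coe_sum]
    congr 1
    · refine Finset.sum_congr rfl fun t _ => ?_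
      rw [PadicInt.coe_mul]
      congr 1
      exact (coe_prod_pow y t).symm
    · split_ifs
      · exact hz1.symm
      · simp
  · funext i
    simp only [red]
    rw [map_add, map_sum, pm, eval_gP]
    have h1 : PadicInt.toZMod (if i = Fin.last m then z else 0) = 0 := by
      split_ifs
      · exact hz2
      · exact map_zero _
    rw [h1, add_zero]
    refine Finset.sum_congr rfl fun t _ => ?_
    rw [map_mul, ha, map_prod]
    simp only [map_pow, red]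

/-- One step at an integral point whose reduction is not in the hyperplane. -/
theorem stepA' {Φ : Fin (m + 1) → MvPolynomial (Fin (m + 1)) ℚ_[p]}
    {a : Gdx m d e → ℤ_[p]} {s : ℚ_[p]} (hs : ‖s‖ = (p : ℝ))
    (hΦ : ∀ x i, pm Φ x i = (∑ t : {s : Fin (m + 1) →₀ ℕ // s.degree ≤ wd d e i},
        ((a ⟨i, t⟩ : ℤ_[p]) : ℚ_[p]) * ∏ j, x j ^ (t : Fin (m + 1) →₀ ℕ) j) +
          if i = Fin.last m then s * x (Fin.last m) ^ d else 0)
    (y : Fin (m + 1) → ℤ_[p]) (hy : red y (Fin.last m) ≠ 0) :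
    GEsc (pm Φ (inc y)) := by
  have hp1 : (1 : ℝ) < p := by exact_mod_cast hp.out.one_lt
  have h0 : ‖y (Fin.last m)‖ = 1 := norm_eq_one_of_toZMod _ hy
  have h1 : ∀ i, ‖∑ t : {s : Fin (m + 1) →₀ ℕ // s.degree ≤ wd d e i},
      ((a ⟨i, t⟩ : ℤ_[p]) : ℚ_[p]) * ∏ j, inc y j ^ (t : Fin (m + 1) →₀ ℕ) j‖ ≤ 1 := by
    intro i
    have h2 : (∑ t : {s : Fin (m + 1) →₀ ℕ // s.degree ≤ wd d e i},
      ((a ⟨i, t⟩ : ℤ_[p]) : ℚ_[p]) * ∏ j, inc y j ^ (t : Fin (m + 1) →₀ ℕ) j) =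
      ((∑ t : {s : Fin (m + 1) →₀ ℕ // s.degree ≤ wd d e i},
        a ⟨i, t⟩ * ∏ j, y j ^ (t : Fin (m + 1) →₀ ℕ) j : ℤ_[p]) : ℚ_[p]) := by
      rw [PadicInt.coe_sum]
      refine Finset.sum_congr rfl fun t _ => ?_
      rw [PadicInt.coe_mul]
      congr 1
      exact (coe_prod_pow y t).symm
    rw [h2]
    exact PadicInt.norm_le_one _
  have h2 : ‖pm Φ (inc y) (Fin.last m)‖ = (p : ℝ) := by
    rw [hΦ, if_pos rfl]
    have h3 : ‖s * inc y (Fin.last m) ^ d‖ = (p : ℝ) := by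
      rw [norm_mul, norm_pow, hs]
      have : ‖inc y (Fin.last m)‖ = 1 := h0
      rw [this, one_pow, mul_one]
    rw [IsUltrametricDist.norm_add_eq_max_of_norm_ne_norm, h3]
    · exact max_eq_right ((h1 _).trans hp1.le)
    · rw [h3]
      exact fun h => absurd (h ▸ h1 (Fin.last m)) (not_le.2 hp1)
  refine ⟨h2.ge, fun i => ?_⟩
  rw [h2]
  by_cases hi : i = Fin.last m
  · rw [hi, h2]
  · rw [hΦ, if_neg hi, add_zero]
    exact (h1 i).trans hp1.le

/-- Escape of integral points. -/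
theorem escA (hd : 2 ≤ d) {Φ : Fin (m + 1) → MvPolynomial (Fin (m + 1)) ℚ_[p]}
    {c : Gdx m d e → ZMod p} {a : Gdx m d e → ℤ_[p]} {s : ℚ_[p]}
    (ha : ∀ k, PadicInt.toZMod (a k) = c k) (hs : ‖s‖ = (p : ℝ))
    (hΦ : ∀ x i, pm Φ x i = (∑ t : {s : Fin (m + 1) →₀ ℕ // s.degree ≤ wd d e i},
        ((a ⟨i, t⟩ : ℤ_[p]) : ℚ_[p]) * ∏ j, x j ^ (t : Fin (m + 1) →₀ ℕ) j) +
          if i = Fin.last m then s * x (Fin.last m) ^ d else 0) (k : ℕ) : ∀
    (y : Fin (m + 1) → ℤ_[p]) (_ : (pm (gP c))^[k] (red y) (Fin.last m) ≠ 0),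
    ∃ n, GEsc ((pm Φ)^[n] (inc y)) := by
  induction k with
  | zero =>
    intro y hy
    exact ⟨1, stepA' hs hΦ y hy⟩
  | succ k ih =>
    intro y hy
    by_cases h0 : red y (Fin.last m) = 0
    · obtain ⟨y', h1, h2⟩ := stepA hd ha hs hΦ y h0
      rw [Function.iterate_succ_apply, ← h2] at hy
      obtain ⟨n, hn⟩ := ih y' hy
      refine ⟨n + 1, ?_⟩
      rw [Function.iterate_succ_apply, h1]
      exact hn
    · exact ⟨1, stepA' hs hΦ y h0⟩

/-- One step at a large point whose direction is in the hyperplane: the form of the values. -/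
theorem stepB (hd : 2 ≤ d) {Φ : Fin (m + 1) → MvPolynomial (Fin (m + 1)) ℚ_[p]}
    {c : Gdx m d e → ZMod p} {a : Gdx m d e → ℤ_[p]} {s : ℚ_[p]}
    (ha : ∀ k, PadicInt.toZMod (a k) = c k) (hs : ‖s‖ = (p : ℝ))
    (hΦ : ∀ x i, pm Φ x i = (∑ t : {s : Fin (m + 1) →₀ ℕ // s.degree ≤ wd d e i},
        ((a ⟨i, t⟩ : ℤ_[p]) : ℚ_[p]) * ∏ j, x j ^ (t : Fin (m + 1) →₀ ℕ) j) +
          if i = Fin.last m then s * x (Fin.last m) ^ d else 0)
    (y : Fin (m + 1) → ℤ_[p]) (hy : red y (Fin.last m) = 0) (k : ℕ) (hk : 1 ≤ k) :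
    ∃ w : Fin (m + 1) → ℤ_[p],
      (∀ i, pm Φ (((p : ℚ_[p])⁻¹) ^ k • inc y) i =
        ((p : ℚ_[p])⁻¹) ^ (k * wd d e i) * ((w i : ℤ_[p]) : ℚ_[p])) ∧
      red w = pm (gF c) (red y) := by
  obtain ⟨z, hz1, hz2⟩ := special_small hd hs (y (Fin.last m)) ((toZMod_eq_zero_iff _).1 hy)
  have hp0 : (p : ℚ_[p]) ≠ 0 := by exact_mod_cast hp.out.ne_zero
  refine ⟨fun i => (∑ t : {s : Fin (m + 1) →₀ ℕ // s.degree ≤ wd d e i},
    a ⟨i, t⟩ * ((p : ℤ_[p]) ^ (k * (wd d e i - (t : Fin (m + 1) →₀ ℕ).degree)) *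
      ∏ j, y j ^ (t : Fin (m + 1) →₀ ℕ) j)) + if i = Fin.last m then z else 0, ?_, ?_⟩
  · intro i
    rw [hΦ]
    simp only [inc, Pi.smul_apply, smul_eq_mul]
    rw [PadicInt.coe_add, PadicInt.coe_sum, mul_add, Finset.mul_sum]
    congr 1
    · refine Finset.sum_congr rfl fun t _ => ?_
      rw [PadicInt.coe_mul, PadicInt.coe_mul, PadicInt.coe_pow, PadicInt.coe_natCast]
      rw [coe_prod_pow y t]
      have h3 : ∏ j, ((((p : ℚ_[p])⁻¹) ^ k * ((y j : ℤ_[p]) : ℚ_[p])) ^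
          (t : Fin (m + 1) →₀ ℕ) j) = ((p : ℚ_[p])⁻¹) ^ (k * (t : Fin (m + 1) →₀ ℕ).degree) *
          ∏ j, ((y j : ℤ_[p]) : ℚ_[p]) ^ (t : Fin (m + 1) →₀ ℕ) j := by
        simp only [mul_pow]
        rw [Finset.prod_mul_distrib, Finset.prod_pow_eq_pow_sum, ← Finsupp.degree_eq_sum, pow_mul]
      rw [h3]
      have h4 : k * wd d e i = k * (t : Fin (m + 1) →₀ ℕ).degree +
          k * (wd d e i - (t : Fin (m + 1) →₀ ℕ).degree) := by
        rw [← mul_add]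
        congr 1
        have := t.2
        omega
      rw [h4, pow_add]
      have h5 : ((p : ℚ_[p])⁻¹) ^ (k * (wd d e i - (t : Fin (m + 1) →₀ ℕ).degree)) *
          (p : ℚ_[p]) ^ (k * (wd d e i - (t : Fin (m + 1) →₀ ℕ).degree)) = 1 := by
        rw [← mul_pow, inv_mul_cancel₀ hp0, one_pow]
      linear_combination (-(((a ⟨i, t⟩ : ℤ_[p]) : ℚ_[p]) *
        ((p : ℚ_[p])⁻¹) ^ (k * (t : Fin (m + 1) →₀ ℕ).degree) *
        ∏ j, ((y j : ℤ_[p]) : ℚ_[p]) ^ (t : Fin (m + 1) →₀ ℕ) j)) * h5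
    · split_ifs with hi
      · subst hi
        rw [hz1, wd, if_pos rfl]
        ring
      · simp
  · funext i
    simp only [red]
    rw [map_add, map_sum, pm, eval_gF]
    have h1 : PadicInt.toZMod (if i = Fin.last m then z else 0) = 0 := by
      split_ifs
      · exact hz2
      · exact map_zero _
    rw [h1, add_zero]
    refine Finset.sum_congr rfl fun t _ => ?_
    rw [map_mul, ha, map_mul, map_pow, map_natCast, map_prod, ZMod.natCast_self]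
    split_ifs with h2
    · rw [h2, Nat.sub_self, mul_zero, pow_zero, one_mul]
      simp only [map_pow, red]
    · have h3 : k * (wd d e i - (t : Fin (m + 1) →₀ ℕ).degree) ≠ 0 := by
        have := t.2
        have h4 : wd d e i - (t : Fin (m + 1) →₀ ℕ).degree ≠ 0 := by omega
        exact Nat.mul_ne_zero (by omega) h4
      rw [zero_pow h3]
      ring

theorem norm_scal (k : ℕ) (x : ℚ_[p]) : ‖((p : ℚ_[p])⁻¹) ^ k * x‖ = (p : ℝ) ^ k * ‖x‖ := by
  rw [norm_mul, norm_pow, norm_inv, Padic.norm_p, inv_inv]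

/-- One step at a large point whose direction is in the hyperplane. -/
theorem stepB2 (hd : 2 ≤ d) (he : 1 ≤ e) (hed : e < d)
    {Φ : Fin (m + 1) → MvPolynomial (Fin (m + 1)) ℚ_[p]}
    {c : Gdx m d e → ZMod p} {a : Gdx m d e → ℤ_[p]} {s : ℚ_[p]}
    (ha : ∀ k, PadicInt.toZMod (a k) = c k) (hs : ‖s‖ = (p : ℝ))
    (hΦ : ∀ x i, pm Φ x i = (∑ t : {s : Fin (m + 1) →₀ ℕ // s.degree ≤ wd d e i},
        ((a ⟨i, t⟩ : ℤ_[p]) : ℚ_[p]) * ∏ j, x j ^ (t : Fin (m + 1) →₀ ℕ) j) +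
          if i = Fin.last m then s * x (Fin.last m) ^ d else 0)
    (y : Fin (m + 1) → ℤ_[p]) (hy : red y (Fin.last m) = 0) (k : ℕ) (hk : 1 ≤ k) :
    GEsc (pm Φ (((p : ℚ_[p])⁻¹) ^ k • inc y)) ∨
    ∃ y' : Fin (m + 1) → ℤ_[p],
      pm Φ (((p : ℚ_[p])⁻¹) ^ k • inc y) = ((p : ℚ_[p])⁻¹) ^ (k * e) • inc y' ∧
      red y' = pm (gF c) (red y) := by
  obtain ⟨w, hw, hr⟩ := stepB hd ha hs hΦ y hy k hk
  set X := pm Φ (((p : ℚ_[p])⁻¹) ^ k • inc y) with hX
  have hp0 : (p : ℚ_[p]) ≠ 0 := by exact_mod_cast hp.out.ne_zero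
  have hp1 : (1 : ℝ) < p := by exact_mod_cast hp.out.one_lt
  have hpos : (0 : ℝ) < p := zero_lt_one.trans hp1
  have hke : 1 ≤ k * e := Nat.mul_pos (by omega) (by omega)
  have hold : ∀ i, i ≠ Fin.last m → X i = ((p : ℚ_[p])⁻¹) ^ (k * e) * ((w i : ℤ_[p]) : ℚ_[p]) := by
    intro i hi
    rw [hw i, wd, if_neg hi]
  have hnew : X (Fin.last m) = ((p : ℚ_[p])⁻¹) ^ (k * d) * ((w (Fin.last m) : ℤ_[p]) : ℚ_[p]) := by
    rw [hw, wd, if_pos rfl]
  have holdn : ∀ i, i ≠ Fin.last m → ‖X i‖ ≤ (p : ℝ) ^ (k * e) := by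
    intro i hi
    rw [hold i hi, norm_scal]
    have : ‖((w i : ℤ_[p]) : ℚ_[p])‖ ≤ 1 := PadicInt.norm_le_one _
    calc (p : ℝ) ^ (k * e) * ‖((w i : ℤ_[p]) : ℚ_[p])‖ ≤ (p : ℝ) ^ (k * e) * 1 := by gcongr
      _ = (p : ℝ) ^ (k * e) := mul_one _
  by_cases hbig : (p : ℝ) ^ (k * e) ≤ ‖X (Fin.last m)‖
  · left
    refine ⟨le_trans ?_ hbig, fun i => ?_⟩
    · calc (p : ℝ) = (p : ℝ) ^ 1 := (pow_one _).symm
        _ ≤ (p : ℝ) ^ (k * e) := pow_le_pow_right₀ hp1.le hke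
    · by_cases hi : i = Fin.last m
      · rw [hi]
      · exact (holdn i hi).trans hbig
  · right
    push Not at hbig
    have hlt : ‖(p : ℚ_[p]) ^ (k * e) * X (Fin.last m)‖ < 1 := by
      rw [norm_mul, norm_pow, Padic.norm_p]
      calc ((p : ℝ)⁻¹) ^ (k * e) * ‖X (Fin.last m)‖ <
          ((p : ℝ)⁻¹) ^ (k * e) * (p : ℝ) ^ (k * e) := by gcongr
        _ = 1 := by rw [← mul_pow, inv_mul_cancel₀ hpos.ne', one_pow]
    have hwl : PadicInt.toZMod (w (Fin.last m)) = 0 := by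
      rw [toZMod_eq_zero_iff]
      have h1 : ‖X (Fin.last m)‖ = (p : ℝ) ^ (k * d) * ‖w (Fin.last m)‖ := by
        rw [hnew, norm_scal]
        rfl
      rw [h1] at hbig
      by_contra h2
      push Not at h2
      have h3 : (p : ℝ) ^ (k * e) ≤ (p : ℝ) ^ (k * d) :=
        pow_le_pow_right₀ hp1.le (Nat.mul_le_mul_left _ hed.le)
      have h4 : (p : ℝ) ^ (k * d) * 1 ≤ (p : ℝ) ^ (k * d) * ‖w (Fin.last m)‖ := by gcongr
      linarith
    obtain ⟨zL, hzL⟩ : ∃ z : ℤ_[p], (z : ℚ_[p]) = (p : ℚ_[p]) ^ (k * e) * X (Fin.last m) :=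
      ⟨⟨_, hlt.le⟩, rfl⟩
    have hzL1 : ‖zL‖ < 1 := by
      have : ‖zL‖ = ‖(zL : ℚ_[p])‖ := rfl
      rw [this, hzL]
      exact hlt
    refine ⟨fun i => if i = Fin.last m then zL else w i, ?_, ?_⟩
    · funext i
      rw [Pi.smul_apply, smul_eq_mul]
      simp only [inc]
      by_cases hi : i = Fin.last m
      · subst hi
        rw [if_pos rfl, hzL, ← mul_assoc, ← mul_pow, inv_mul_cancel₀ hp0, one_pow, one_mul]
      · rw [if_neg hi, hold i hi]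
    · rw [← hr]
      funext i
      simp only [red]
      by_cases hi : i = Fin.last m
      · subst hi
        rw [if_pos rfl, hwl, toZMod_eq_zero_iff]
        exact hzL1
      · rw [if_neg hi]

theorem esc_of_red {k : ℕ} (hk : 1 ≤ k) (y : Fin (m + 1) → ℤ_[p]) (hy : red y (Fin.last m) ≠ 0) :
    GEsc (((p : ℚ_[p])⁻¹) ^ k • inc y) := by
  have hp1 : (1 : ℝ) < p := by exact_mod_cast hp.out.one_lt
  have h0 : ‖y (Fin.last m)‖ = 1 := norm_eq_one_of_toZMod _ hy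
  have h1 : ∀ i, ‖(((p : ℚ_[p])⁻¹) ^ k • inc y) i‖ = (p : ℝ) ^ k * ‖y i‖ := by
    intro i
    rw [Pi.smul_apply, smul_eq_mul, norm_scal]
    rfl
  refine ⟨?_, fun i => ?_⟩
  · rw [h1, h0, mul_one]
    calc (p : ℝ) = (p : ℝ) ^ 1 := (pow_one _).symm
      _ ≤ (p : ℝ) ^ k := pow_le_pow_right₀ hp1.le hk
  · rw [h1, h1, h0]
    gcongr
    exact PadicInt.norm_le_one _

/-- Escape of large points. -/
theorem escB (hd : 2 ≤ d) (he : 1 ≤ e) (hed : e < d)
    {Φ : Fin (m + 1) → MvPolynomial (Fin (m + 1)) ℚ_[p]}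
    {c : Gdx m d e → ZMod p} {a : Gdx m d e → ℤ_[p]} {s : ℚ_[p]}
    (ha : ∀ k, PadicInt.toZMod (a k) = c k) (hs : ‖s‖ = (p : ℝ))
    (hΦ : ∀ x i, pm Φ x i = (∑ t : {s : Fin (m + 1) →₀ ℕ // s.degree ≤ wd d e i},
        ((a ⟨i, t⟩ : ℤ_[p]) : ℚ_[p]) * ∏ j, x j ^ (t : Fin (m + 1) →₀ ℕ) j) +
          if i = Fin.last m then s * x (Fin.last m) ^ d else 0) (t : ℕ) : ∀
    (y : Fin (m + 1) → ℤ_[p]) (k : ℕ) (_ : 1 ≤ k)
    (_ : (pm (gF c))^[t] (red y) (Fin.last m) ≠ 0),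
    ∃ n, GEsc ((pm Φ)^[n] (((p : ℚ_[p])⁻¹) ^ k • inc y)) := by
  induction t with
  | zero =>
    intro y k hk hy
    exact ⟨0, esc_of_red hk y hy⟩
  | succ t ih =>
    intro y k hk hy
    by_cases h0 : red y (Fin.last m) = 0
    · rcases stepB2 hd he hed ha hs hΦ y h0 k hk with h1 | ⟨y', h1, h2⟩
      · exact ⟨1, h1⟩
      · rw [Function.iterate_succ_apply, ← h2] at hy
        obtain ⟨n, hn⟩ := ih y' (k * e) (Nat.mul_pos (by omega) (by omega)) hy
        refine ⟨n + 1, ?_⟩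
        rw [Function.iterate_succ_apply, h1]
        exact hn
    · exact ⟨0, esc_of_red hk y h0⟩

/-- **Trap theorem.** Every point escapes. -/
theorem gtrap (hd : 2 ≤ d) (he : 1 ≤ e) (hed : e < d)
    {Φ : Fin (m + 1) → MvPolynomial (Fin (m + 1)) ℚ_[p]} (hΦ : GPre p m d e Φ)
    {c : Gdx m d e → ZMod p} (hc : GRed Φ c) (h1 : T1 c) (h2 : T2 c)
    (x : Fin (m + 1) → ℚ_[p]) : ∃ n, GEsc ((pm Φ)^[n] x) := by
  obtain ⟨a, s, ha, hs, hΦx⟩ := exists_lift hΦ hc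
  rcases cases_point x with ⟨y, rfl⟩ | ⟨y, k, hk, hy, rfl⟩
  · by_cases h0 : red y (Fin.last m) = 0
    · obtain ⟨n, hn⟩ := h1 (red y) h0
      exact escA hd ha hs hΦx n y hn
    · exact escA hd ha hs hΦx 0 y h0
  · by_cases h0 : red y (Fin.last m) = 0
    · obtain ⟨n, hn⟩ := h2 (red y) hy h0
      exact escB hd he hed ha hs hΦx n y k hk hn
    · exact escB hd he hed ha hs hΦx 0 y k hk h0

/-- the `p`-adic absolute value -/
noncomputable def nv (p : ℕ) [Fact p.Prime] : AbsoluteValue ℚ_[p] ℝ where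
  toFun x := ‖x‖
  map_mul' := norm_mul
  nonneg' := norm_nonneg
  eq_zero' _ := norm_eq_zero
  add_le' := norm_add_le

/-- One step in the escaping region. -/
theorem gesc_step (hed : e ≤ d)
    {Φ : Fin (m + 1) → MvPolynomial (Fin (m + 1)) ℚ_[p]} (hΦ : GPre p m d e Φ)
    {x : Fin (m + 1) → ℚ_[p]} (hx : GEsc x) :
    GEsc (pm Φ x) ∧ ‖x (Fin.last m)‖ ^ d ≤ ‖pm Φ x (Fin.last m)‖ := by
  classical
  have hp1 : (1 : ℝ) < p := by exact_mod_cast hp.out.one_lt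
  set ρ := ‖x (Fin.last m)‖ with hρ
  have hρ1 : 1 ≤ ρ := hp1.le.trans hx.1
  have hρ0 : 0 < ρ := zero_lt_one.trans_le hρ1
  have hterm : ∀ i, ∀ t ∈ (Φ i).support, ¬ (i = Fin.last m ∧ t = Finsupp.single (Fin.last m) d) →
      ‖coeff t (Φ i) * ∏ j, x j ^ t j‖ ≤ ρ ^ wd d e i := by
    intro i t ht hne
    rw [norm_mul, norm_prod]
    have h2 : ∏ j, ‖x j ^ t j‖ ≤ ρ ^ wd d e i := by
      calc ∏ j, ‖x j ^ t j‖ ≤ ∏ j, ρ ^ t j := by
            refine Finset.prod_le_prod (fun j _ => norm_nonneg _) fun j _ => ?_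
            rw [norm_pow]
            exact pow_le_pow_left₀ (norm_nonneg _) (hx.2 j) _
        _ = ρ ^ t.degree := by
            rw [Finset.prod_pow_eq_pow_sum, Finsupp.degree_eq_sum]
        _ ≤ ρ ^ wd d e i := pow_le_pow_right₀ hρ1 ((le_totalDegree ht).trans (hΦ.deg i))
    calc ‖coeff t (Φ i)‖ * ∏ j, ‖x j ^ t j‖ ≤ 1 * ρ ^ wd d e i :=
          mul_le_mul (hΦ.int i t hne) h2 (Finset.prod_nonneg fun j _ => norm_nonneg _) zero_le_one
      _ = ρ ^ wd d e i := one_mul _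
  have hlast : ‖pm Φ x (Fin.last m)‖ = p * ρ ^ d := by
    rw [pm, eval_eq']
    have hmem : Finsupp.single (Fin.last m) d ∈ (Φ (Fin.last m)).support := by
      rw [mem_support_iff]
      intro h0
      have := hΦ.one
      rw [h0, norm_zero] at this
      linarith
    rw [← Finset.add_sum_erase _ _ hmem]
    have h1 : ∏ j, x j ^ (Finsupp.single (Fin.last m) d : Fin (m + 1) →₀ ℕ) j =
        x (Fin.last m) ^ d := by
      rw [Finset.prod_eq_single (Fin.last m)]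
      · simp
      · intro b _ hb
        simp [hb.symm]
      · simp
    rw [h1]
    have h2 : ‖coeff (Finsupp.single (Fin.last m) d) (Φ (Fin.last m)) * x (Fin.last m) ^ d‖ =
        p * ρ ^ d := by
      rw [norm_mul, norm_pow, hΦ.one]
    have h3 : ‖∑ t ∈ (Φ (Fin.last m)).support.erase (Finsupp.single (Fin.last m) d),
        coeff t (Φ (Fin.last m)) * ∏ j, x j ^ t j‖ ≤ ρ ^ d := by
      refine IsUltrametricDist.norm_sum_le_of_forall_le_of_nonneg (by positivity) fun t ht => ?_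
      rw [Finset.mem_erase] at ht
      have h4 := hterm (Fin.last m) t ht.2 (fun h => ht.1 h.2)
      rwa [wd, if_pos rfl] at h4
    have h4 : ρ ^ d < p * ρ ^ d := by
      have : 0 < ρ ^ d := by positivity
      nlinarith
    rw [IsUltrametricDist.norm_add_eq_max_of_norm_ne_norm, h2]
    · exact max_eq_left (h3.trans h4.le)
    · rw [h2]
      exact (h3.trans_lt h4).ne'
  have hold : ∀ i, i ≠ Fin.last m → ‖pm Φ x i‖ ≤ ρ ^ d := by
    intro i hi
    rw [pm, eval_eq']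
    refine IsUltrametricDist.norm_sum_le_of_forall_le_of_nonneg (by positivity) fun t ht => ?_
    refine (hterm i t ht (fun h => hi h.1)).trans ?_
    rw [wd, if_neg hi]
    exact pow_le_pow_right₀ hρ1 hed
  have hρd : 1 ≤ ρ ^ d := one_le_pow₀ hρ1
  have h5 : ρ ^ d ≤ p * ρ ^ d := le_mul_of_one_le_left (by positivity) hp1.le
  refine ⟨⟨?_, fun i => ?_⟩, ?_⟩
  · rw [hlast]
    exact le_mul_of_one_le_right (by positivity) hρd
  · rw [hlast]
    by_cases hi : i = Fin.last m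
    · rw [hi, hlast]
    · exact (hold i hi).trans h5
  · rw [hlast]
    exact h5

/-- **Finiteness of the return sets of an escaping orbit.** -/
theorem gfinite (hd : 2 ≤ d) (hed : e < d)
    {Φ : Fin (m + 1) → MvPolynomial (Fin (m + 1)) ℚ_[p]} (hΦ : GPre p m d e Φ)
    {x : Fin (m + 1) → ℚ_[p]} (hx : ∃ n, GEsc ((pm Φ)^[n] x))
    {F : MvPolynomial (Fin (m + 1)) ℚ_[p]} (k : ℕ)
    (hk : coeff (Finsupp.single (Fin.last m) (((fun G => bind₁ Φ G)^[k] F).totalDegree))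
      ((fun G => bind₁ Φ G)^[k] F) ≠ 0) :
    {n | eval ((pm Φ)^[n] x) F = 0}.Finite := by
  obtain ⟨n₀, hn₀⟩ := hx
  have hp1 : (1 : ℝ) < p := by exact_mod_cast hp.out.one_lt
  have hlp : 0 < Real.log p := Real.log_pos hp1
  have hd0 : (0 : ℝ) < d := by
    have : (0 : ℝ) < (2 : ℕ) := by norm_num
    exact this.trans_le (by exact_mod_cast hd)
  have hall : ∀ j, GEsc ((pm Φ)^[n₀ + j] x) ∧
      (d : ℝ) ^ j * Real.log p ≤ Real.log ‖(pm Φ)^[n₀ + j] x (Fin.last m)‖ := by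
    intro j
    induction j with
    | zero =>
      refine ⟨hn₀, ?_⟩
      rw [pow_zero, one_mul, add_zero]
      exact Real.log_le_log (by linarith) hn₀.1
    | succ j ih =>
      obtain ⟨h1, h2⟩ := gesc_step hed.le hΦ ih.1
      rw [← Function.iterate_succ_apply' (pm Φ)] at h1 h2
      refine ⟨h1, ?_⟩
      have h0 : 0 < ‖(pm Φ)^[n₀ + j] x (Fin.last m)‖ := by
        have := ih.1.1
        linarith
      have h3 := Real.log_le_log (pow_pos h0 d) h2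
      rw [Real.log_pow] at h3
      refine le_trans ?_ h3
      rw [pow_succ]
      have h4 := mul_le_mul_of_nonneg_left ih.2 hd0.le
      linarith
  refine Pool.Agent.Helper86.GT.growth (nv p) hd hed hΦ.deg x
    ⟨Real.log p / (d : ℝ) ^ n₀, by positivity, fun N => ⟨n₀ + N, by omega, Fin.last m, ?_⟩⟩ k hk
  have h1 := (hall N).2
  have h2 : Real.log p / (d : ℝ) ^ n₀ * (d : ℝ) ^ (n₀ + N) = (d : ℝ) ^ N * Real.log p := by
    rw [pow_add]
    field_simp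
  rw [h2]
  exact h1

end Pool.Agent.Helper86.GG
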