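import Pool.Agent.Helper26.GG.Density
import Pool.Agent.Helper26.GG.Gen
import Pool.Agent.Helper26.GT.Term
import Pool.Agent.Helper52.GG.Counts
import Pool.Agent.Helper86.GG.Trap
import Pool.Agent.Helper87.MQ.Down
import Pool.Agent.Helper87.MQ.FieldEmb

/-!
# One hundred percent of the maps with a dominant last component
-/

set_option autoImplicit false

namespace Pool.Agent.Helper86.GG

open Finset MvPolynomial
open Pool.Agent.Helper86.MQ (pm)
open Pool.Agent.Helper26.GG
open Pool.Agent.Helper87.MQ (toC toQp exists_down exists_field_emb)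
open Pool.Agent.Helper87.DMLP (primesFor not_summable_primesFor prime_of_mem_primesFor)

/-- The bad arrays modulo a prime are few. -/
theorem few_bad (m d e : ℕ) (he : 1 ≤ e) (hed : e < d) : ∃ C : ℕ, ∀ (q : ℕ) [Fact q.Prime],
    ∃ BB : Finset (Gdx m d e → ZMod q), BB.card * q ≤ C * q ^ Fintype.card (Gdx m d e) ∧
      ∀ c, c ∉ BB → T1 c ∧ T2 c ∧ TR he c ≠ 0 := by
  classical
  obtain ⟨C₃, hC₃⟩ := bad3 m d he
  refine ⟨(m + 2) + 2 * (m + 1) + C₃, fun q hF => ?_⟩
  refine ⟨(univ.filter fun c : Gdx m d e → ZMod q => ¬ T1 c) ∪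
    (univ.filter fun c : Gdx m d e → ZMod q => ¬ T2 c) ∪
    (univ.filter fun c : Gdx m d e → ZMod q => TR he c = 0), ?_, ?_⟩
  · have hq : Fintype.card (ZMod q) = q := ZMod.card q
    have hC : Fintype.card (Gdx m d e → ZMod q) = q ^ Fintype.card (Gdx m d e) := by
      rw [Fintype.card_fun, hq]
    have h1 := Pool.Agent.Helper52.GG.bad1 (F := ZMod q) (m := m) he hed
    have h2 := Pool.Agent.Helper52.GG.bad2 (F := ZMod q) (m := m) he hed
    have h3 := hC₃ q
    rw [hC, hq] at h1 h2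
    have e1 : {c : Gdx m d e → ZMod q | ¬ T1 c}.ncard =
        (univ.filter fun c : Gdx m d e → ZMod q => ¬ T1 c).card := by
      rw [← Set.ncard_coe_finset]
      congr 1
      ext c
      simp
    have e2 : {c : Gdx m d e → ZMod q | ¬ T2 c}.ncard =
        (univ.filter fun c : Gdx m d e → ZMod q => ¬ T2 c).card := by
      rw [← Set.ncard_coe_finset]
      congr 1
      ext c
      simp
    have e3 : {c : Gdx m d e → ZMod q | TR he c = 0}.ncard =
        (univ.filter fun c : Gdx m d e → ZMod q => TR he c = 0).card := by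
      rw [← Set.ncard_coe_finset]
      congr 1
      ext c
      simp
    rw [e1] at h1
    rw [e2] at h2
    rw [e3] at h3
    have h4 := Finset.card_union_le ((univ.filter fun c : Gdx m d e → ZMod q => ¬ T1 c) ∪
      (univ.filter fun c : Gdx m d e → ZMod q => ¬ T2 c))
      (univ.filter fun c : Gdx m d e → ZMod q => TR he c = 0)
    have h5 := Finset.card_union_le (univ.filter fun c : Gdx m d e → ZMod q => ¬ T1 c)
      (univ.filter fun c : Gdx m d e → ZMod q => ¬ T2 c)
    calc _ ≤ ((univ.filter fun c : Gdx m d e → ZMod q => ¬ T1 c).card +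
          (univ.filter fun c : Gdx m d e → ZMod q => ¬ T2 c).card +
          (univ.filter fun c : Gdx m d e → ZMod q => TR he c = 0).card) * q :=
          Nat.mul_le_mul_right _ (h4.trans (Nat.add_le_add_right h5 _))
      _ = (univ.filter fun c : Gdx m d e → ZMod q => ¬ T1 c).card * q +
          (univ.filter fun c : Gdx m d e → ZMod q => ¬ T2 c).card * q +
          (univ.filter fun c : Gdx m d e → ZMod q => TR he c = 0).card * q := by ring
      _ ≤ (m + 2) * q ^ Fintype.card (Gdx m d e) + 2 * (m + 1) * q ^ Fintype.card (Gdx m d e) +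
          C₃ * q ^ Fintype.card (Gdx m d e) := Nat.add_le_add (Nat.add_le_add h1 h2) h3
      _ = ((m + 2) + 2 * (m + 1) + C₃) * q ^ Fintype.card (Gdx m d e) := by ring
  · intro c hc
    simp only [Finset.mem_union, Finset.mem_filter, Finset.mem_univ, true_and, not_or,
      not_not] at hc
    exact ⟨hc.1.1, hc.1.2, hc.2⟩

/-- Finiteness over the `p`-adic numbers. -/
theorem finite_padic {m d e q : ℕ} [Fact q.Prime] (he : 1 ≤ e) (hed : e < d) (hq : d < q)
    {Φ : Fin (m + 1) → MvPolynomial (Fin (m + 1)) ℚ_[q]} (hΦ : GPre q m d e Φ)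
    {c : Gdx m d e → ZMod q} (hc : GRed Φ c) (h1 : T1 c) (h2 : T2 c) (h3 : TR he c ≠ 0)
    (x : Fin (m + 1) → ℚ_[q]) {G : MvPolynomial (Fin (m + 1)) ℚ_[q]} (hG : G ≠ 0) :
    {n | eval ((pm Φ)^[n] x) G = 0}.Finite := by
  have hD := dom_of he hed hq hΦ hc h3
  obtain ⟨k, hk⟩ := Pool.Agent.Helper26.GT.term he hed hD hG
  exact gfinite (by omega) hed hΦ (gtrap (by omega) he hed hΦ hc h1 h2 x) k hk

/-- **Main theorem.** -/
theorem gg_main (m d e : ℕ) (he : 1 ≤ e) (hed : e < d) (A : Finset ℂ) (ε : ℝ) (hε : 0 < ε) :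
    ∃ K : ℕ, ∀ B : ℕ, K ≤ B → (gbox m d e B).Finite ∧
      (1 - ε) * ((gbox m d e B).ncard : ℝ) ≤
        (({Φ ∈ gbox m d e B |
          ∀ α : Fin (m + 1) → ℂ, (∀ i, α i ∈ Subfield.closure (A : Set ℂ)) →
            ∀ F : MvPolynomial (Fin (m + 1)) ℂ, F ≠ 0 →
              {n | eval ((pm (toC Φ))^[n] α) F = 0}.Finite}).ncard : ℝ) := by
  classical
  obtain ⟨C, hC⟩ := few_bad m d e he hed
  obtain ⟨P, K, hP, h⟩ := g_density m d e C (primesFor A) (not_summable_primesFor A)
    (prime_of_mem_primesFor A) (d + 1) ε hε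
  choose BB hBB1 hBB2 using hC
  refine ⟨K, fun B hB => ?_⟩
  obtain ⟨hfin, hcard⟩ := h (fun q _ => BB q) (fun q _ => hBB1 q) B hB
  refine ⟨hfin, hcard.trans ?_⟩
  refine Nat.cast_le.2 (Set.ncard_le_ncard ?_ (hfin.subset fun f hf => hf.1))
  rintro Φ ⟨hΦ, q, hqP, hF, c, hcB, hpre, hred⟩
  refine ⟨hΦ, fun α hα F hF0 => ?_⟩
  obtain ⟨hqA, hqp, hqd⟩ := hP q hqP
  obtain ⟨_, ⟨ι⟩⟩ := exists_field_emb A q hqA
  obtain ⟨G, hG0, -, hG⟩ := exists_down (Subfield.closure (A : Set ℂ)) F hF0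
  obtain ⟨h1, h2, h3⟩ := hBB2 q c hcB
  have h4 := finite_padic he hed (by omega) hpre hred h1 h2 h3
    (fun i => ι ⟨α i, hα i⟩) (G := MvPolynomial.map ι G)
    (fun h => hG0 (map_injective ι ι.injective (by rw [h, map_zero])))
  exact h4.subset fun n hn => hG q ι Φ (fun i => ⟨α i, hα i⟩) n hn

end Pool.Agent.Helper86.GG
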